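import Mathlib
import Pool.Agent.H83.Crd.Coord

/-!
# Choice of a new coordinate of a function field, second part
-/

open Polynomial

namespace Pool.Agent.H17.Disp

namespace Crd

section

variable {F L : Type} [Field F] [Field L] [Algebra F L] [Algebra (RatFunc F) L]
    [IsScalarTower F (RatFunc F) L]

/-- polynomials in a coordinate belonging to a valuation ring. -/
theorem poly_mem (V : ValuationSubring L) (hV : ∀ c : F, algebraMap F L c ∈ V)
    (ht : algebraMap (RatFunc F) L RatFunc.X ∈ V) (p : F[X]) :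
    algebraMap (RatFunc F) L (algebraMap F[X] (RatFunc F) p) ∈ V := by
  induction p using Polynomial.induction_on' with
  | add p q hp hq => rw [map_add, map_add]; exact V.add_mem _ _ hp hq
  | monomial n c =>
    rw [← C_mul_X_pow_eq_monomial, map_mul, map_pow, map_mul, map_pow, RatFunc.algebraMap_X]
    refine V.mul_mem _ _ ?_ (pow_mem ht n)
    have := hV c
    rw [IsScalarTower.algebraMap_apply F (RatFunc F) L] at this
    exact this

omit [Algebra F L] [IsScalarTower F (RatFunc F) L] in
/-- an algebraic field extension of a subfield contained in a valuation ring is contained in it. -/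
theorem top_of_subfield [Algebra.IsAlgebraic (RatFunc F) L] (V : ValuationSubring L)
    (h : ∀ z : RatFunc F, algebraMap (RatFunc F) L z ∈ V) : V = ⊤ := by
  rw [eq_top_iff]
  intro z _
  have hz : IsIntegral (RatFunc F) z := (Algebra.IsAlgebraic.isAlgebraic z).isIntegral
  obtain ⟨p, hp, hpz⟩ := hz
  let g : RatFunc F →+* V := (algebraMap (RatFunc F) L).codRestrict V.toSubring h
  have hz' : IsIntegral V z := by
    refine ⟨p.map g, hp.map g, ?_⟩
    rw [eval₂_map]
    exact hpz
  obtain ⟨w, hw⟩ := IsIntegrallyClosed.isIntegral_iff.mp hz'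
  rw [← hw]
  exact w.2

theorem exists_poly_inv_notMem [Algebra.IsAlgebraic (RatFunc F) L] (V : ValuationSubring L)
    (hV : ∀ c : F, algebraMap F L c ∈ V) (hne : V ≠ ⊤)
    (ht : algebraMap (RatFunc F) L RatFunc.X ∈ V) :
    ∃ p : F[X], p ≠ 0 ∧ (algebraMap (RatFunc F) L (algebraMap F[X] (RatFunc F) p))⁻¹ ∉ V := by
  by_contra hcon
  push Not at hcon
  apply hne
  apply top_of_subfield (F := F) V
  intro z
  rw [← RatFunc.num_div_denom z, map_div₀, div_eq_mul_inv]
  exact V.mul_mem _ _ (poly_mem V hV ht _) (hcon _ z.denom_ne_zero)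

end

/-- integrality in the new coordinate. -/
theorem integral_new {F L : Type} [Field F] [Field L] (f : RatFunc F →+* L) {q : F[X]}
    (hq : q.Monic) (s : L) (d : F[X]) (hd : d ∣ q)
    (hs : (f.comp (algebraMap F[X] (RatFunc F))).IsIntegralElem
      (f (algebraMap F[X] (RatFunc F) d) * s)) :
    ((f.comp (sub (coord q) (coord_transcendental hq.ne_zero) : RatFunc F →+* RatFunc F)).comp
      (algebraMap F[X] (RatFunc F))).IsIntegralElem s := by
  have hq' : algebraMap F[X] (RatFunc F) q ≠ 0 := RatFunc.algebraMap_ne_zero hq.ne_zero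
  set g := (f.comp (sub (coord q) (coord_transcendental hq.ne_zero) : RatFunc F →+* RatFunc F)).comp
      (algebraMap F[X] (RatFunc F)) with hg
  let _ : Algebra F[X] L := g.toAlgebra
  have hgC : ∀ c : F, g (Polynomial.C c) = f (algebraMap F[X] (RatFunc F) (Polynomial.C c)) := by
    intro c
    change f (sub (coord q) (coord_transcendental hq.ne_zero) (algebraMap F[X] (RatFunc F) (Polynomial.C c))) = _
    rw [sub_algebraMap, aeval_C, RatFunc.algebraMap_eq_C, RatFunc.algebraMap_C]
  have hgX : g X = f (coord q) := by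
    change f (sub (coord q) (coord_transcendental hq.ne_zero) (algebraMap F[X] (RatFunc F) X)) = _
    rw [sub_algebraMap, aeval_X]
  have hfq : ∀ p : F[X], (p.map (Polynomial.C : F →+* F[X])).eval₂ g (f RatFunc.X)
      = f (algebraMap F[X] (RatFunc F) p) := by
    intro p
    induction p using Polynomial.induction_on' with
    | add a b ha hb => rw [Polynomial.map_add, eval₂_add, ha, hb, map_add, map_add]
    | monomial n c =>
      rw [map_monomial, eval₂_monomial, hgC, ← C_mul_X_pow_eq_monomial, map_mul, map_pow, map_mul,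
        map_pow, RatFunc.algebraMap_X]
  -- the old coordinate is integral
  have hx : IsIntegral F[X] (f RatFunc.X) := by
    refine ⟨(X - Polynomial.C X) * q.map (Polynomial.C : F →+* F[X]) + 1, ?_, ?_⟩
    · apply Monic.add_of_left ((monic_X_sub_C _).mul (hq.map _))
      rw [degree_mul, degree_X_sub_C, degree_one]
      have : 0 ≤ (q.map (Polynomial.C : F →+* F[X])).degree :=
        zero_le_degree_iff.mpr (hq.map _).ne_zero
      exact lt_of_lt_of_le (by norm_num) (add_le_add_right this 1)
    · change eval₂ g _ _ = 0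
      rw [eval₂_add, eval₂_mul, eval₂_sub, eval₂_X, eval₂_C, eval₂_one, hfq, hgX, coord, map_add,
        map_inv₀]
      have : f (algebraMap F[X] (RatFunc F) q) ≠ 0 := by
        rw [Ne, map_eq_zero]
        exact hq'
      field_simp
      ring
  have hu : IsIntegral F[X] (f (algebraMap F[X] (RatFunc F) q)⁻¹) := by
    have h1 : f (algebraMap F[X] (RatFunc F) q)⁻¹ = algebraMap F[X] L X - f RatFunc.X := by
      change _ = g X - _
      rw [hgX, coord, map_add, add_sub_cancel_left]
    rw [h1]
    exact isIntegral_algebraMap.sub hx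
  have hp : ∀ p : F[X], IsIntegral F[X] (f (algebraMap F[X] (RatFunc F) p)) := by
    intro p
    induction p using Polynomial.induction_on' with
    | add a b ha hb => rw [map_add, map_add]; exact ha.add hb
    | monomial n c =>
      rw [← C_mul_X_pow_eq_monomial, map_mul, map_pow, map_mul, map_pow, RatFunc.algebraMap_X,
        ← hgC]
      exact (isIntegral_algebraMap (R := F[X]) (A := L)).mul (hx.pow n)
  have hw : IsIntegral F[X] (f (algebraMap F[X] (RatFunc F) d) * s) := by
    let C := integralClosure F[X] L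
    obtain ⟨P, hP, hPs⟩ := hs
    have h1 : IsIntegral C (f (algebraMap F[X] (RatFunc F) d) * s) := by
      let k : F[X] →+* C := (f.comp (algebraMap F[X] (RatFunc F))).codRestrict C.toSubring hp
      refine ⟨P.map k, hP.map k, ?_⟩
      rw [eval₂_map]
      exact hPs
    exact isIntegral_trans _ h1
  have hs' : s = (f (algebraMap F[X] (RatFunc F) d) * s) * (f (algebraMap F[X] (RatFunc F) q)⁻¹ *
      f (algebraMap F[X] (RatFunc F) (hd.choose))) := by
    have h1 := hd.choose_spec
    have hd0 : d ≠ 0 := by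
      rintro rfl
      exact hq.ne_zero (zero_dvd_iff.mp hd)
    have he0 : hd.choose ≠ 0 := by
      intro h
      rw [h, mul_zero] at h1
      exact hq.ne_zero h1
    have h2 : algebraMap F[X] (RatFunc F) q = algebraMap F[X] (RatFunc F) d *
      algebraMap F[X] (RatFunc F) hd.choose := by rw [← map_mul, ← h1]
    have h3 : f (algebraMap F[X] (RatFunc F) d) ≠ 0 := by
      rw [Ne, map_eq_zero]
      exact RatFunc.algebraMap_ne_zero hd0
    have h4 : f (algebraMap F[X] (RatFunc F) hd.choose) ≠ 0 := by
      rw [Ne, map_eq_zero]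
      exact RatFunc.algebraMap_ne_zero he0
    rw [map_inv₀, h2, map_mul]
    field_simp
  have : IsIntegral F[X] s := by
    rw [hs']
    exact hw.mul (hu.mul (hp _))
  exact this

/-- from polynomials to the subring of polynomials -/
theorem integral_polyRing {F L : Type} [Field F] [Field L] [Algebra (RatFunc F) L] (s : L)
    (h : ((algebraMap (RatFunc F) L).comp (algebraMap F[X] (RatFunc F))).IsIntegralElem s) :
    IsIntegral ↥(polyRing F) s := by
  obtain ⟨P, hP, hPs⟩ := h
  let k : F[X] →+* ↥(polyRing F) := (algebraMap F[X] (RatFunc F)).codRestrict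
    (polyRing F).toSubring (fun p => mem_polyRing.mpr ⟨p, rfl⟩)
  refine ⟨P.map k, hP.map k, ?_⟩
  rw [eval₂_map]
  exact hPs

/-- denominators. -/
theorem exists_denom {F L : Type} [Field F] [Field L] [Algebra (RatFunc F) L]
    [Algebra.IsAlgebraic (RatFunc F) L] (s : L) :
    ∃ d : F[X], d ≠ 0 ∧ ((algebraMap (RatFunc F) L).comp
      (algebraMap F[X] (RatFunc F))).IsIntegralElem
        (algebraMap (RatFunc F) L (algebraMap F[X] (RatFunc F) d) * s) := by
  let _ : Algebra F[X] L := ((algebraMap (RatFunc F) L).comp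
      (algebraMap F[X] (RatFunc F))).toAlgebra
  have : IsScalarTower F[X] (RatFunc F) L := IsScalarTower.of_algebraMap_eq (fun z => rfl)
  have h : IsAlgebraic F[X] s := by
    rw [IsFractionRing.isAlgebraic_iff F[X] (RatFunc F) L]
    exact Algebra.IsAlgebraic.isAlgebraic s
  obtain ⟨d, hd, hi⟩ := h.exists_integral_multiple
  refine ⟨d, hd, ?_⟩
  rw [Algebra.smul_def] at hi
  exact hi

theorem exists_monic {F L : Type} [Field F] [Field L] [Algebra F L] [Algebra (RatFunc F) L]
    [IsScalarTower F (RatFunc F) L] [Algebra.IsAlgebraic (RatFunc F) L] (V : ValuationSubring L)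
    (hV : ∀ c : F, algebraMap F L c ∈ V) (hne : V ≠ ⊤)
    (ht : algebraMap (RatFunc F) L RatFunc.X ∈ V) (S : Finset L) :
    ∃ q : F[X], q.Monic ∧ (algebraMap (RatFunc F) L (algebraMap F[X] (RatFunc F) q))⁻¹ ∉ V ∧
      ∀ s ∈ S, ∃ d, d ∣ q ∧ ((algebraMap (RatFunc F) L).comp
      (algebraMap F[X] (RatFunc F))).IsIntegralElem
        (algebraMap (RatFunc F) L (algebraMap F[X] (RatFunc F) d) * s) := by
  classical
  obtain ⟨p0, hp0, hp1⟩ := exists_poly_inv_notMem V hV hne ht
  choose! d hd hi using fun s : L => exists_denom (F := F) s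
  set D := ∏ s ∈ S, d s with hD
  have hD0 : D ≠ 0 := Finset.prod_ne_zero_iff.mpr (fun s _ => hd s)
  have hpD : p0 * D ≠ 0 := mul_ne_zero hp0 hD0
  refine ⟨p0 * D * Polynomial.C (p0 * D).leadingCoeff⁻¹, monic_mul_leadingCoeff_inv hpD, ?_, ?_⟩
  · intro h
    apply hp1
    have h2 : (algebraMap (RatFunc F) L (algebraMap F[X] (RatFunc F) p0))⁻¹ =
        (algebraMap (RatFunc F) L (algebraMap F[X] (RatFunc F) (p0 * D * Polynomial.C (p0 * D).leadingCoeff⁻¹)))⁻¹ *
        algebraMap (RatFunc F) L (algebraMap F[X] (RatFunc F) (D * Polynomial.C (p0 * D).leadingCoeff⁻¹)) := by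
      have h3 : algebraMap (RatFunc F) L (algebraMap F[X] (RatFunc F) (D * Polynomial.C (p0 * D).leadingCoeff⁻¹)) ≠ 0 := by
        rw [Ne, map_eq_zero, map_eq_zero_iff _ (RatFunc.algebraMap_injective F)]
        refine mul_ne_zero hD0 ?_
        rw [Ne, Polynomial.C_eq_zero]
        exact inv_ne_zero (leadingCoeff_ne_zero.mpr hpD)
      rw [mul_assoc p0, map_mul, map_mul, mul_inv, mul_assoc, inv_mul_cancel₀ h3, mul_one]
    rw [h2]
    exact V.mul_mem _ _ h (poly_mem V hV ht _)
  · intro s hs
    exact ⟨d s, ((Finset.dvd_prod_of_mem d hs).mul_left p0).mul_right _, hi s⟩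

end Crd

open Crd in
theorem exists_coordinate_aux (F L : Type) [Field F] [Field L] [Algebra F L]
    [I : Algebra (RatFunc F) L] [IsScalarTower F (RatFunc F) L] [FiniteDimensional (RatFunc F) L]
    [Algebra.IsSeparable (RatFunc F) L]
    (V : ValuationSubring L) (hV : ∀ c : F, algebraMap F L c ∈ V) (hne : V ≠ ⊤) (S : Finset L)
    (ht : algebraMap (RatFunc F) L RatFunc.X ∈ V) :
    ∃ (_ : Algebra (RatFunc F) L), IsScalarTower F (RatFunc F) L ∧
      FiniteDimensional (RatFunc F) L ∧ Algebra.IsSeparable (RatFunc F) L ∧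
      (∀ s ∈ S, IsIntegral ↥(polyRing F) s) ∧ algebraMap (RatFunc F) L RatFunc.X ∉ V := by
  obtain ⟨q, hq, hq1, hq2⟩ := exists_monic V hV hne ht S
  obtain ⟨A, hA, h1, h2, h3⟩ := coord_structure (L := L) hq.ne_zero
  refine ⟨A, h1, h2, h3, ?_, ?_⟩
  · intro s hs
    obtain ⟨d, hd, hi⟩ := hq2 s hs
    have h4 := integral_new (@algebraMap (RatFunc F) L _ _ I) hq s d hd hi
    apply @integral_polyRing F L _ _ A s
    have h5 : @algebraMap (RatFunc F) L _ _ A = (@algebraMap (RatFunc F) L _ _ I).comp
        (sub (coord q) (coord_transcendental hq.ne_zero) : RatFunc F →+* RatFunc F) :=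
      RingHom.ext hA
    rw [h5]
    exact h4
  · rw [hA, sub_X, coord, map_add]
    intro h
    apply hq1
    have := V.sub_mem h ht
    rwa [add_sub_cancel_left, map_inv₀] at this

open Crd in
/-- choice of a new coordinate -/
theorem exists_coordinate (F L : Type) [Field F] [Field L] [Algebra F L]
    (h0 : ∃ (_ : Algebra (RatFunc F) L), IsScalarTower F (RatFunc F) L ∧
      FiniteDimensional (RatFunc F) L ∧ Algebra.IsSeparable (RatFunc F) L)
    (V : ValuationSubring L) (hV : ∀ c : F, algebraMap F L c ∈ V) (hne : V ≠ ⊤) (S : Finset L) :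
    ∃ (_ : Algebra (RatFunc F) L), IsScalarTower F (RatFunc F) L ∧
      FiniteDimensional (RatFunc F) L ∧ Algebra.IsSeparable (RatFunc F) L ∧
      (∀ s ∈ S, IsIntegral ↥(polyRing F) s) ∧ algebraMap (RatFunc F) L RatFunc.X ∉ V := by
  obtain ⟨I, h1, h2, h3⟩ := h0
  by_cases ht : algebraMap (RatFunc F) L RatFunc.X ∈ V
  · exact exists_coordinate_aux F L V hV hne S ht
  · obtain ⟨A, hA, h4, h5, h6⟩ := inv_structure (F := F) (L := L)
    refine @exists_coordinate_aux F L _ _ _ A h4 h5 h6 V hV hne S ?_
    rw [hA, sub_X, map_inv₀]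
    exact (V.mem_or_inv_mem _).resolve_left ht

end Pool.Agent.H17.Disp
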